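import Pool.Agent.H41.CP.GDefs

set_option autoImplicit false

/-!
# Project CPG: `ghall : S_GHALL`
-/

namespace Pool.Agent.H596.CPG

open Pool.Agent.H41.CPG Finset

lemma inv_app {r : ℕ} (f : PP r) (x : Fin (2 * r)) : f⁻¹ (f x) = x := Equiv.symm_apply_apply f x

/-- Hall's theorem: without a permutation avoiding the sets `A x` there is a large rectangle inside `A`. -/
lemma hall {r : ℕ} (A : Fin (2 * r) → Finset (Fin (2 * r))) (h : ¬ ∃ s : PP r, ∀ x, s x ∉ A x) :
    ∃ S T : Finset (Fin (2 * r)), 2 * r + 1 ≤ S.card + T.card ∧ ∀ x ∈ S, ∀ c ∈ T, c ∈ A x := by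
  by_contra hc
  push Not at hc
  apply h
  have h1 : ∀ S : Finset (Fin (2 * r)), S.card ≤ (S.biUnion fun x => (A x)ᶜ).card := by
    intro S
    by_contra h2
    push Not at h2
    have h3 : 2 * r + 1 ≤ S.card + ((S.biUnion fun x => (A x)ᶜ)ᶜ).card := by
      have h4 := card_le_univ (S.biUnion fun x => (A x)ᶜ)
      rw [Fintype.card_fin] at h4
      rw [card_compl, Fintype.card_fin]
      omega
    obtain ⟨x, hx, c, hc1, hc2⟩ := hc S _ h3
    rw [mem_compl, mem_biUnion] at hc1
    exact hc1 ⟨x, hx, mem_compl.2 hc2⟩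
  obtain ⟨f, hf, hft⟩ := (Finset.all_card_le_biUnion_card_iff_exists_injective
    fun x => (A x)ᶜ).1 h1
  refine ⟨Equiv.ofBijective f (Finite.injective_iff_bijective.1 hf), fun x => ?_⟩
  exact mem_compl.1 (hft x)

/-- the numerical contradiction -/
lemma num {r s t p : ℕ} (hr : 4 ≤ r) (hs : s ≤ t) (ht : t ≤ 2 * r) (hst : 2 * r + 1 ≤ s + t)
    (h1 : s * t ≤ p + 2) (h2 : p ≤ r * s) : False := by
  obtain ⟨u, rfl⟩ : ∃ u, t = r + u := ⟨t - r, by omega⟩
  have hu : 1 ≤ u := by omega
  have hur : u ≤ r := by omega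
  obtain ⟨v, rfl⟩ : ∃ v, u = v + 1 := ⟨u - 1, by omega⟩
  obtain ⟨w, rfl⟩ : ∃ w, r = v + 1 + w := ⟨r - (v + 1), by omega⟩
  have hs2 : w + 1 ≤ s := by omega
  have h3 : s * (v + 1) ≤ 2 := by nlinarith
  have h4 : (w + 1) * (v + 1) ≤ s * (v + 1) := Nat.mul_le_mul_right _ hs2
  nlinarith

theorem ghall : S_GHALL := by
  intro r hr H a b ca cb
  by_contra hcon
  have h1 : ¬ ∃ s : PP r, ∀ x, s x ∉ (univ.image fun i => H i x) ∪
      ((if x = a then {ca} else ∅) ∪ (if x = b then {cb} else ∅)) := by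
    rintro ⟨s, hs⟩
    apply hcon
    refine ⟨s, fun i x h => ?_, fun h => ?_, fun h => ?_⟩
    · apply hs x
      rw [h]
      exact mem_union_left _ (mem_image_of_mem (fun i => H i x) (mem_univ i))
    · apply hs a
      rw [h, if_pos rfl]
      exact mem_union_right _ (mem_union_left _ (mem_singleton_self _))
    · apply hs b
      rw [h, if_pos rfl]
      exact mem_union_right _ (mem_union_right _ (mem_singleton_self _))
  obtain ⟨S, T, hST, h2⟩ := hall _ h1
  have hS6 : S.card ≤ 2 * r := by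
    have := card_le_univ S
    rwa [Fintype.card_fin] at this
  have hT6 : T.card ≤ 2 * r := by
    have := card_le_univ T
    rwa [Fintype.card_fin] at this
  obtain ⟨P, hP⟩ : ∃ P : Finset (Fin (2 * r) × Fin (2 * r)),
      P = (S ×ˢ T).filter fun z => ∃ i, H i z.1 = z.2 := ⟨_, rfl⟩
  have h3 : S ×ˢ T ⊆ P ∪ {(a, ca), (b, cb)} := by
    rintro ⟨x, c⟩ hz
    have hz' := hz
    rw [mem_product] at hz
    have h4 := h2 x hz.1 c hz.2
    rw [mem_union, mem_union, mem_image] at h4
    rw [mem_union, hP, mem_filter]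
    rcases h4 with ⟨i, _, h4⟩ | h4 | h4
    · left
      exact ⟨hz', i, h4⟩
    · right
      split_ifs at h4 with h5
      · rw [mem_singleton] at h4
        rw [h5, h4]
        exact mem_insert_self _ _
      · exact absurd h4 (notMem_empty _)
    · right
      split_ifs at h4 with h5
      · rw [mem_singleton] at h4
        rw [h5, h4]
        exact mem_insert_of_mem (mem_singleton_self _)
      · exact absurd h4 (notMem_empty _)
  have h4 : S.card * T.card ≤ P.card + 2 := by
    rw [← card_product]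
    refine (card_le_card h3).trans ((card_union_le _ _).trans ?_)
    have : ({(a, ca), (b, cb)} : Finset (Fin (2 * r) × Fin (2 * r))).card ≤ 2 := card_le_two
    omega
  have h5 : P.card ≤ r * S.card := by
    have h6 : P ⊆ (univ ×ˢ S : Finset (Fin r × Fin (2 * r))).image fun z => (z.2, H z.1 z.2) := by
      rintro ⟨x, c⟩ hz
      rw [hP, mem_filter, mem_product] at hz
      obtain ⟨⟨hx, _⟩, i, hi⟩ := hz
      rw [mem_image]
      exact ⟨(i, x), mem_product.2 ⟨mem_univ _, hx⟩, Prod.ext rfl hi⟩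
    refine (card_le_card h6).trans (card_image_le.trans ?_)
    rw [card_product, card_univ, Fintype.card_fin]
  have h7 : P.card ≤ r * T.card := by
    have h6 : P ⊆ (univ ×ˢ T : Finset (Fin r × Fin (2 * r))).image fun z => ((H z.1)⁻¹ z.2, z.2) := by
      rintro ⟨x, c⟩ hz
      rw [hP, mem_filter, mem_product] at hz
      obtain ⟨⟨_, hc⟩, i, hi⟩ := hz
      rw [mem_image]
      refine ⟨(i, c), mem_product.2 ⟨mem_univ _, hc⟩, Prod.ext ?_ rfl⟩
      change (H i)⁻¹ c = x
      have hi' : H i x = c := hi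
      rw [← hi', inv_app]
    refine (card_le_card h6).trans (card_image_le.trans ?_)
    rw [card_product, card_univ, Fintype.card_fin]
  rcases le_total S.card T.card with hle | hle
  · exact num hr hle hT6 hST h4 h5
  · exact num hr hle hS6 (by omega) (by rw [Nat.mul_comm]; exact h4) h7

end Pool.Agent.H596.CPG
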